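import Mathlib
import Pool.Agent.Helper25.TriDefs
import Pool.Agent.Helper25.TriOdd

set_option autoImplicit false

namespace Pool.Agent.Results.MP_7dfbfb_co.TwoAdicValuation

open Pool.Agent.Helper25.Tri

/-- **The 2-adic valuation of the number of perfect matchings of the triangle graph.**
For every `n ≡ 0` or `3 (mod 4)` the number `M n` of perfect matchings of the triangle graph `T n`
of order `n` is nonzero and its 2-adic valuation is `⌊(n+1)/4⌋`. -/
theorem result (n : ℕ) (h : n % 4 = 0 ∨ n % 4 = 3) :
    M n ≠ 0 ∧ padicValNat 2 (M n) = (n + 1) / 4 :=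
  valuation n h

end Pool.Agent.Results.MP_7dfbfb_co.TwoAdicValuation
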